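import Pool.Agent.V11271.GR.Dens
import Pool.Agent.Y671.GL.EC

set_option autoImplicit false

/-!
# Density and growth for newforms with real coefficients
-/

namespace Pool.Agent.V11271.GR

open UpperHalfPlane hiding I
open MatrixGroups CongruenceSubgroup Filter Topology Complex MeasureTheory Set
open Pool.Agent.Y671.GL
open Pool.Agent.Y22.RX (S Bad)
open Pool.Agent.Y771.NF (Lam Xf lm exists_unit ldata frm_newf conj_lm Lam_diff Lam_fe Lam_conj Lam_ser)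
open scoped ComplexConjugate

/-- a completed L-function is not a monomial -/
theorem nc_of {κ : ℝ} {H X Z : ℂ → ℂ} (h : CF κ H X Z) (c : ℂ) (m : ℕ) : ∃ z, X z ≠ c * z ^ m := by
  by_contra hcon
  push Not at hcon
  obtain ⟨c1, K1, hc1, hK1, hr⟩ := h.rgt (1 / 2) (by norm_num)
  obtain ⟨K, T0, hK, hT0, hg⟩ := h.gam 2 (by norm_num)
  have hκ := h.κ_pos
  have key : ∀ t : ℝ, T0 ≤ t → Real.exp (κ * Real.log t) ≤ 2 ^ m * K1 * Real.exp (2 * K) / c1 := by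
    intro t ht
    have ht0 : 0 < t := by linarith
    obtain ⟨-, hH0, -⟩ := hg t 0 ht (by simp)
    rw [add_zero] at hH0
    have hHp : 0 < ‖H (I * t)‖ := norm_pos_iff.2 hH0
    obtain ⟨-, -, -, -, hu1⟩ := hg t 1 ht (by simp)
    obtain ⟨-, -, -, hl2, -⟩ := hg t 2 ht (by simp)
    have e1 := h.eq (I * t + 1) (by simp; exact ht0)
    have e2 := h.eq (I * t + 2) (by simp; exact ht0)
    have r1 := (hr (1 / 2 + (I * t + 1)) (by simp; norm_num)).2.1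
    have r2 := (hr (1 / 2 + (I * t + 2)) (by simp; norm_num)).1
    have n1 : ‖X (I * t + 1)‖ ≤ Real.exp (κ * Real.log t + K) * ‖H (I * t)‖ * K1 := by
      rw [e1, norm_mul]
      simp only [one_re, mul_one] at hu1
      exact mul_le_mul hu1 r1 (norm_nonneg _) (by positivity)
    have n2 : Real.exp (κ * Real.log t * 2 - K) * ‖H (I * t)‖ * c1 ≤ ‖X (I * t + 2)‖ := by
      rw [e2, norm_mul]
      have h2re : (2 : ℂ).re = 2 := by norm_num
      rw [h2re] at hl2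
      exact mul_le_mul hl2 r2 hc1.le (norm_nonneg _)
    have n3 : ‖X (I * t + 2)‖ ≤ 2 ^ m * ‖X (I * t + 1)‖ := by
      rw [hcon, hcon, norm_mul, norm_mul, norm_pow, norm_pow]
      have h1 : (1 : ℝ) ≤ ‖(I * t + 1 : ℂ)‖ := by
        have := Complex.abs_re_le_norm (I * t + 1 : ℂ)
        simpa using this
      have h2 : ‖(I * t + 2 : ℂ)‖ ≤ 2 * ‖(I * t + 1 : ℂ)‖ := by
        have h3 : (I * t + 2 : ℂ) = (I * t + 1) + 1 := by ring
        rw [h3]
        refine (norm_add_le _ _).trans ?_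
        rw [norm_one]
        linarith
      calc ‖c‖ * ‖(I * t + 2 : ℂ)‖ ^ m ≤ ‖c‖ * (2 * ‖(I * t + 1 : ℂ)‖) ^ m := by gcongr
        _ = 2 ^ m * (‖c‖ * ‖(I * t + 1 : ℂ)‖ ^ m) := by rw [mul_pow]; ring
    have n4 : Real.exp (κ * Real.log t * 2 - K) * ‖H (I * t)‖ * c1 ≤
        2 ^ m * (Real.exp (κ * Real.log t + K) * ‖H (I * t)‖ * K1) :=
      n2.trans (n3.trans (by gcongr))
    have n5 : Real.exp (κ * Real.log t * 2 - K) = Real.exp (κ * Real.log t) * Real.exp (κ * Real.log t - K) := by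
      rw [← Real.exp_add]
      congr 1
      ring
    have n6 : Real.exp (κ * Real.log t + K) = Real.exp (2 * K) * Real.exp (κ * Real.log t - K) := by
      rw [← Real.exp_add]
      congr 1
      ring
    rw [n5, n6] at n4
    have n7 : 0 < Real.exp (κ * Real.log t - K) * ‖H (I * t)‖ := by positivity
    rw [le_div_iff₀ hc1]
    have n8 : (Real.exp (κ * Real.log t) * c1) * (Real.exp (κ * Real.log t - K) * ‖H (I * t)‖) ≤
        (2 ^ m * K1 * Real.exp (2 * K)) * (Real.exp (κ * Real.log t - K) * ‖H (I * t)‖) := by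
      linarith
    exact le_of_mul_le_mul_right n8 n7
  have hlim : Tendsto (fun t : ℝ => Real.exp (κ * Real.log t)) atTop atTop :=
    Real.tendsto_exp_atTop.comp (Real.tendsto_log_atTop.const_mul_atTop hκ)
  obtain ⟨t, ht1, ht2⟩ := ((hlim.eventually_gt_atTop (2 ^ m * K1 * Real.exp (2 * K) / c1)).and
    (eventually_ge_atTop T0)).exists
  exact absurd (key t ht2) (not_le.2 ht1)

variable {N : ℕ} [NeZero N] {k : ℕ} {f : CuspForm (Gamma0 N : Subgroup (GL (Fin 2) ℝ)) (k : ℤ)} {ε : ℝ}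

/-- the completed L-function, central line = imaginary axis -/
noncomputable def X1 (f : CuspForm (Gamma0 N : Subgroup (GL (Fin 2) ℝ)) (k : ℤ)) (z : ℂ) : ℂ :=
  Lam f ((k : ℂ) / 2 + z)

theorem newf_all (hk : 1 ≤ k) (hf : W388.IsNewf N k f ε) : Differentiable ℂ (X1 f) ∧ Dens (X1 f) ∧
    (∀ s : ℂ, X1 f s = 0 → |s.re| ≤ 1 / 2) ∧
    (∃ K : ℝ, ∀ z : ℂ, ‖X1 f z‖ ≤ Real.exp (K * (1 + ‖z‖) ^ (3 / 2 : ℝ))) ∧
    ∀ (c : ℂ) (m : ℕ), ∃ z, X1 f z ≠ c * z ^ m := by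
  obtain ⟨u, hu, hue⟩ := exists_unit hf
  obtain ⟨Z, hFE, hL⟩ := Pool.Agent.Y671.GL.exists_Z hk hf
  have hD := ldata hk hf hu hue hFE hL
  have hF := frm_newf hk hf
  have hstrip := Pool.Agent.Y671.GL.strip_of hF hL hD
  have hG := gg_of hF hL hD
  have hreal : ∀ n, conj (lm f n) = lm f n := conj_lm
  have hlfn := Pool.Agent.Y24.GL.lfn_of hk hFE hF hreal hL
  have hdens : Dens (Xf f u) := dens_of hk hD hL.diff hstrip fun c hc =>
    Pool.Agent.Y24.GL.density hlfn (fun κ h1 h2 => Pool.Agent.Y24.GL.mol hF hL (by linarith) h2.le) hc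
  have hXX : ∀ z, Xf f u z = u * X1 f z := fun z => rfl
  have hXX' : X1 f = fun z => u⁻¹ * Xf f u z := by
    funext z
    rw [hXX, inv_mul_cancel_left₀ hu]
  refine ⟨?_, ?_, ?_, ?_, ?_⟩
  · rw [hXX']
    exact hD.diff.const_mul _
  · rw [hXX']
    exact hdens.const_mul (inv_ne_zero hu) hD.diff
  · intro s hs
    exact hstrip s (by rw [hXX, hs, mul_zero])
  · obtain ⟨K, hK, hs⟩ := hG.cg.slow
    refine ⟨K + |Real.log ‖u⁻¹‖|, fun z => ?_⟩
    have hun : 0 < ‖u⁻¹‖ := norm_pos_iff.2 (inv_ne_zero hu)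
    rw [hXX', norm_mul]
    have h1 : (1 : ℝ) ≤ (1 + ‖z‖) ^ (3 / 2 : ℝ) := Real.one_le_rpow (by linarith [norm_nonneg z]) (by norm_num)
    have h2 : ‖u⁻¹‖ ≤ Real.exp (|Real.log ‖u⁻¹‖| * (1 + ‖z‖) ^ (3 / 2 : ℝ)) := by
      calc ‖u⁻¹‖ = Real.exp (Real.log ‖u⁻¹‖) := (Real.exp_log hun).symm
        _ ≤ _ := Real.exp_le_exp.2 (by
          have h3 := le_abs_self (Real.log ‖u⁻¹‖)
          have h4 := abs_nonneg (Real.log ‖u⁻¹‖)
          nlinarith)
    calc ‖u⁻¹‖ * ‖Xf f u z‖ ≤ Real.exp (|Real.log ‖u⁻¹‖| * (1 + ‖z‖) ^ (3 / 2 : ℝ)) *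
          Real.exp (K * (1 + ‖z‖) ^ (3 / 2 : ℝ)) := mul_le_mul h2 (hs z) (norm_nonneg _) (Real.exp_pos _).le
      _ = _ := by rw [← Real.exp_add]; congr 1; ring
  · intro c m
    obtain ⟨z, hz⟩ := nc_of hG.cg.cf (u * c) m
    refine ⟨z, fun h => hz ?_⟩
    rw [hXX, h]
    ring

theorem X1_conj (hf : W388.IsNewf N k f ε) (z : ℂ) : X1 f (conj z) = conj (X1 f z) := by
  unfold X1
  rw [← Lam_conj hf]
  congr 1
  rw [map_add, map_div₀, Complex.conj_natCast, Complex.conj_ofNat]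

theorem X1_sym (hk : 1 ≤ k) (hf : W388.IsNewf N k f ε) (z : ℂ) : X1 f (-z) = (ε : ℂ) * X1 f z := by
  unfold X1
  rw [← Lam_fe hk hf]
  congr 1
  ring

/-- growth for newforms -/
theorem newf_growth (hk : 1 ≤ k) (hf : W388.IsNewf N k f ε) {c : ℝ} (hc : c < 1) :
    ∃ C : ℝ, 0 < C ∧ ∀ r T : ℝ, 0 ≤ r → 2 ≤ T →
      volume (Bad (X1 f) (r / Real.log T) T) ≤ ENNReal.ofReal (C * Real.exp (-(c * r)) * T) := by
  obtain ⟨hd, hD, hst, ⟨K, hK⟩, hnc⟩ := newf_all hk hf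
  have hne : ∃ z, X1 f z ≠ 0 := by
    obtain ⟨z, hz⟩ := hnc 0 0
    exact ⟨z, by simpa using hz⟩
  refine growth hd (X1_conj hf) (X1_sym hk hf) hK hnc (fun b hb => (hst b hb).trans (by norm_num))
    (fun c hc => ?_) hc
  obtain ⟨C, hC, h⟩ := hD.fin hd hne hc
  exact ⟨C, hC, fun δ T hδ hT => ⟨(h δ T hδ hT).1, (h δ T hδ hT).2.2⟩⟩

/-- the criterion for newforms -/
theorem newf_criterion (hk : 1 ≤ k) (hf : W388.IsNewf N k f ε) :
    (∀ b, X1 f b = 0 → b.re = 0) ↔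
      ∀ t : ℝ, StrictMonoOn (fun x : ℝ => ‖X1 f (x + t * I : ℂ)‖) (Set.Ici 0) := by
  obtain ⟨hd, -, -, ⟨K, hK⟩, hnc⟩ := newf_all hk hf
  exact criterion hd (X1_conj hf) (X1_sym hk hf) hK hnc

end Pool.Agent.V11271.GR
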