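import Pool.Agent.V11271.GR.Dens
import Pool.Agent.Y693.GL.Prd

set_option autoImplicit false

/-!
# Density for elliptic curves over abelian number fields
-/

namespace Pool.Agent.V11271.GR

open UpperHalfPlane hiding I
open MatrixGroups CongruenceSubgroup Filter Topology Complex MeasureTheory Set
open Pool.Agent.Y671.GL
open Pool.Agent.Y693.GL
open Pool.Agent.W169.HF (IsForm coef)
open Pool.Agent.W355.UN (facE prodE condA Pk coprime_cond)
open scoped ComplexConjugate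

/-- conjugate coefficients -/
lemma Z_conj2 {lam lam' : ℕ → ℂ} (hc : ∀ n, conj (lam n) = lam' n) {Z Z' : ℂ → ℂ} (hL : IsL lam Z)
    (hL' : IsL lam' Z') (s : ℂ) : Z' (conj s) = conj (Z s) := by
  have hd1 : Differentiable ℂ (conj ∘ Z ∘ conj) := by
    intro z
    have := (hL.diff (conj z)).conj_conj
    rwa [Complex.conj_conj] at this
  have hev : (conj ∘ Z ∘ conj) =ᶠ[𝓝 (2 : ℂ)] Z' := by
    have hopen : IsOpen {s : ℂ | 1 < s.re} := isOpen_lt continuous_const Complex.continuous_re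
    filter_upwards [hopen.mem_nhds (show (2 : ℂ) ∈ {s : ℂ | 1 < s.re} by simp)] with s hs
    simp only [Function.comp_apply]
    rw [hL'.ser s hs, hL.ser (conj s) (by simpa using hs), Complex.conj_tsum]
    refine tsum_congr fun n => ?_
    rw [map_mul, hc]
    congr 1
    have h1 : (n : ℂ).arg ≠ Real.pi := by
      rw [Complex.natCast_arg]
      exact Real.pi_ne_zero.symm
    have h2 := Complex.cpow_conj (n : ℂ) (-s) h1
    rw [map_neg, Complex.conj_natCast] at h2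
    rw [h2, Complex.conj_conj]
  have h2 := AnalyticOnNhd.eq_of_eventuallyEq (fun z _ => hd1.analyticAt z) (fun z _ => hL'.diff.analyticAt z) hev
  have h3 := congrFun h2 (conj s)
  simp only [Function.comp_apply] at h3
  rw [← h3, Complex.conj_conj]

/-- the axioms of the density theorem from growth in both half planes -/
theorem lfn_of2 {k N : ℕ} {ps lam : ℕ → ℂ} {Z Z' : ℂ → ℂ} (hfm : Frm k N ps lam) (hL : IsL lam Z)
    (hg : ∃ A : ℝ, ∀ s : ℂ, 1 / 16 ≤ s.re → 1 ≤ s.im → ‖Z s‖ ≤ A * s.im ^ A)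
    (hg' : ∃ A : ℝ, ∀ s : ℂ, 1 / 16 ≤ s.re → 1 ≤ s.im → ‖Z' s‖ ≤ A * s.im ^ A)
    (hc : ∀ s : ℂ, Z (conj s) = conj (Z' s)) : Pool.Agent.Y24.GL.LFn Z where
  diff := hL.diff
  low := by
    obtain ⟨c, K, hc, -, h⟩ := rgt_of hfm hL 1 one_pos
    exact ⟨c, hc, fun z hz => (h z (by linarith)).1⟩
  ne := fun z hz h0 => by
    obtain ⟨c, K, hc, -, h⟩ := rgt_of hfm hL (z.re - 1) (by linarith)
    have := (h z (by linarith)).1
    rw [h0, norm_zero] at this
    linarith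
  gro := fun A => by
    obtain ⟨a, ha⟩ := hg
    obtain ⟨a', ha'⟩ := hg'
    have hK : IsCompact (Set.Icc (1 / 4) A ×ℂ Set.Icc (-1) 1) := isCompact_Icc.reProdIm isCompact_Icc
    obtain ⟨M, hM⟩ := hK.exists_bound_of_continuousOn hL.diff.continuous.continuousOn
    obtain ⟨C, hC⟩ : ∃ C : ℝ, C = |a| + |a'| + |M| + 1 := ⟨_, rfl⟩
    obtain ⟨B, hB⟩ : ∃ B : ℕ, B = max ⌈|a|⌉₊ ⌈|a'|⌉₊ := ⟨_, rfl⟩
    have hup : ∀ (Y : ℂ → ℂ) (b : ℝ), |b| ≤ C → ⌈|b|⌉₊ ≤ B →
        (∀ s : ℂ, 1 / 16 ≤ s.re → 1 ≤ s.im → ‖Y s‖ ≤ b * s.im ^ b) →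
        ∀ z : ℂ, 1 / 4 ≤ z.re → 1 ≤ z.im → ‖Y z‖ ≤ C * (1 + |z.im|) ^ B := by
      intro Y b hbC hbB hY z h1 h2
      have h3 := hY z (by linarith) h2
      have h4 : |z.im| = z.im := abs_of_nonneg (by linarith)
      rw [h4]
      have h5 : z.im ^ b ≤ (1 + z.im) ^ B := by
        calc z.im ^ b ≤ z.im ^ (B : ℝ) := by
              apply Real.rpow_le_rpow_of_exponent_le h2
              refine (le_abs_self b).trans ((Nat.le_ceil _).trans ?_)
              exact_mod_cast hbB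
          _ = z.im ^ B := Real.rpow_natCast _ _
          _ ≤ _ := by gcongr; linarith
      calc ‖Y z‖ ≤ b * z.im ^ b := h3
        _ ≤ |b| * z.im ^ b := by
            apply mul_le_mul_of_nonneg_right (le_abs_self b) (by positivity)
        _ ≤ C * (1 + z.im) ^ B := by
            have hCn : 0 ≤ C := (abs_nonneg b).trans hbC
            gcongr
    have hCa : |a| ≤ C := by
      rw [hC]
      have := abs_nonneg M
      have := abs_nonneg a'
      linarith
    have hCa' : |a'| ≤ C := by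
      rw [hC]
      have := abs_nonneg M
      have := abs_nonneg a
      linarith
    have hC0 : 0 < C := by
      rw [hC]
      have := abs_nonneg M
      have := abs_nonneg a
      have := abs_nonneg a'
      linarith
    refine ⟨C, B, hC0, fun z h1 h2 => ?_⟩
    rcases le_or_gt 1 z.im with h3 | h3
    · exact hup Z a hCa (by rw [hB]; exact le_max_left _ _) ha z h1 h3
    · rcases le_or_gt z.im (-1) with h4 | h4
      · have h5 := hup Z' a' hCa' (by rw [hB]; exact le_max_right _ _) ha' (conj z) (by simpa using h1)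
          (by simp; linarith)
        have h6 := hc (conj z)
        rw [Complex.conj_conj] at h6
        rw [h6, Complex.norm_conj]
        rw [Complex.conj_im, abs_neg] at h5
        exact h5
      · have h5 := hM z ⟨⟨h1, h2⟩, ⟨h4.le, h3.le⟩⟩
        have h6 : (1 : ℝ) ≤ (1 + |z.im|) ^ B := one_le_pow₀ (by linarith [abs_nonneg z.im])
        have h7 : ‖Z z‖ ≤ C := by
          rw [hC]
          have := abs_nonneg a
          have := abs_nonneg a'
          have := le_abs_self M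
          linarith
        calc ‖Z z‖ ≤ C * 1 := by rw [mul_one]; exact h7
          _ ≤ _ := by gcongr

section

lemma conj_l2 {N : ℕ} {f : CuspForm (Gamma0 N : Subgroup (GL (Fin 2) ℝ)) 2} {q : ℕ} [NeZero q] (χ : DirichletCharacter ℂ q) (n : ℕ) : conj (l2 f χ n) = l2 f χ⁻¹ n := by
  unfold l2
  rw [map_mul, Complex.conj_ofReal]
  congr 1
  exact MulChar.star_apply' χ (n : ZMod q)

variable {N : ℕ} [NeZero N] {f : CuspForm (Gamma0 N : Subgroup (GL (Fin 2) ℝ)) 2} {w : ℝ}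

theorem dens_tw {q : ℕ} [NeZero q] {χ : DirichletCharacter ℂ q} (hf : IsForm N f w) (hχ : χ.IsPrimitive)
    (hco : Nat.Coprime q N) : ∃ X : ℂ → ℂ, Differentiable ℂ X ∧ (∀ s : ℂ, X s = 0 → |s.re| ≤ 1 / 2) ∧
      (∃ z, X z ≠ 0) ∧ Dens X ∧ ∃ v : ℂ, v ≠ 0 ∧ ∃ σ : ℝ, ∀ s : ℂ, σ ≤ s.re → X (s - 1) = v * facE f χ s := by
  obtain ⟨c, u, X, Z, hD, hL, hv⟩ := ldata_tw hf hχ hco
  obtain ⟨c', u', X', Z', hD', hL', -⟩ := ldata_tw (χ := χ⁻¹) hf (Pool.Agent.W440.TW.inv_primitive χ hχ) hco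
  have hfrm := frm2 hf hχ hco
  obtain ⟨h1, h2⟩ := Pool.Agent.Y693.GL.strip_of (by norm_num) hfrm hL hD
  have hlfn : Pool.Agent.Y24.GL.LFn Z := lfn_of2 hfrm hL hD.gro hD'.gro
    (fun s => Z_conj2 (lam := l2 f χ⁻¹) (lam' := l2 f χ) (fun n => by rw [conj_l2, inv_inv]) hL' hL s)
  refine ⟨X, hD.diff, h1, h2, dens_of (by norm_num) hD hL.diff h1 fun c hc =>
    Pool.Agent.Y24.GL.density hlfn (fun κ h1 h2 => Pool.Agent.Y24.GL.mol hfrm hL (by linarith) h2.le) hc, hv⟩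

/-- all completed L-functions of elliptic curves over abelian number fields -/
theorem dens_ab {M : ℕ} [NeZero M] (G : Subgroup (DirichletCharacter ℂ M)) [Fintype G] (hf : IsForm N f w)
    (hco : Nat.Coprime M N) {Λ : ℂ → ℂ} (hd : Differentiable ℂ Λ)
    (hΛ : ∃ σ : ℝ, ∀ s : ℂ, σ ≤ s.re → Λ s = prodE G f s) :
    Dens (fun z => Λ (1 + z)) ∧ (∀ s : ℂ, Λ (1 + s) = 0 → |s.re| ≤ 1 / 2) ∧ ∃ z, Λ (1 + z) ≠ 0 := by
  classical
  have hone : ∀ χ : G, ∃ X : ℂ → ℂ, Differentiable ℂ X ∧ (∀ s : ℂ, X s = 0 → |s.re| ≤ 1 / 2) ∧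
      (∃ z, X z ≠ 0) ∧ Dens X ∧ ∃ v : ℂ, v ≠ 0 ∧ ∃ σ : ℝ, ∀ s : ℂ, σ ≤ s.re →
        X (s - 1) = v * facE f (χ : DirichletCharacter ℂ M).primitiveCharacter s := by
    intro χ
    have : NeZero (χ : DirichletCharacter ℂ M).conductor := ⟨DirichletCharacter.conductor_ne_zero _⟩
    exact dens_tw hf (DirichletCharacter.primitiveCharacter_isPrimitive _) (coprime_cond hco _)
  choose X h1 h2 h3 h4 v hv σ h5 using hone
  obtain ⟨P, hP⟩ : ∃ P : ℂ → ℂ, P = fun z => ∏ χ : G, X χ z := ⟨_, rfl⟩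
  obtain ⟨V, hV⟩ : ∃ V : ℂ, V = ∏ χ : G, v χ := ⟨_, rfl⟩
  have hV0 : V ≠ 0 := by
    rw [hV]
    exact Finset.prod_ne_zero_iff.2 fun χ _ => hv χ
  have hPd : Differentiable ℂ P := by
    rw [hP]
    exact Differentiable.fun_finsetProd fun χ _ => h1 χ
  have hPs : ∀ s : ℂ, P s = 0 → |s.re| ≤ 1 / 2 := by
    intro s hs
    rw [hP] at hs
    obtain ⟨χ, -, hχ⟩ := Finset.prod_eq_zero_iff.1 hs
    exact h2 χ s hχ
  have hPD : Dens P := by
    rw [hP]
    exact dens_prod Finset.univ X (fun χ _ => h1 χ) (fun χ _ => h3 χ) (fun χ _ => h4 χ)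
  have h6 : ∃ σ' : ℝ, ∀ s : ℂ, σ' ≤ s.re → P (s - 1) = V * prodE G f s := by
    refine ⟨∑ χ : G, |σ χ|, fun s hs => ?_⟩
    rw [hP, hV]
    unfold prodE
    rw [← Finset.prod_mul_distrib]
    refine Finset.prod_congr rfl fun χ _ => h5 χ s ?_
    refine le_trans ?_ hs
    refine (le_abs_self _).trans ?_
    exact Finset.single_le_sum (f := fun χ : G => |σ χ|) (fun _ _ => abs_nonneg _) (Finset.mem_univ χ)
  obtain ⟨σ', hσ'⟩ := hΛ
  have he := Pk.uniq (G := fun s => V * prodE G f s) (hd.const_mul V)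
    (hPd.comp (by fun_prop : Differentiable ℂ fun s : ℂ => s - 1)) ⟨σ', fun s hs => by
    show V * Λ s = V * prodE G f s
    rw [hσ' s hs]⟩ h6
  have hX : ∀ z : ℂ, P z = V * Λ (1 + z) := by
    intro z
    have h7 := congrFun he (1 + z)
    simpa using h7
  have hX' : (fun z => Λ (1 + z)) = fun z => V⁻¹ * P z := by
    funext z
    rw [hX, inv_mul_cancel_left₀ hV0]
  refine ⟨?_, ?_, 1, ?_⟩
  · rw [hX']
    exact hPD.const_mul (inv_ne_zero hV0) hPd
  · intro s hs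
    exact hPs s (by rw [hX, hs, mul_zero])
  · intro h0
    have := hPs 1 (by rw [hX, h0, mul_zero])
    norm_num at this

end

end Pool.Agent.V11271.GR
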