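import Pool.Agent.V11271.GR.Fac

set_option autoImplicit false

/-!
# From a log-free density bound to the measure of the heights at which the growth fails
-/

namespace Pool.Agent.V11271.GR

open Complex Filter Topology MeasureTheory Set
open Pool.Agent.Y22.RX (Ev S Bad sum_le)
open scoped ComplexConjugate

variable {g F : ℂ → ℂ} {K : ℝ}

theorem bad_meas2 (h : Ev g F K) (hD : ∀ b, g b = 0 → |b.re| ≤ 1) {c C : ℝ} (hc : 0 < c) (hc1 : c ≤ 1) (hC : 0 < C)
    (hcount : ∀ δ T : ℝ, 0 ≤ δ → 2 ≤ T → (S g δ T).Finite ∧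
      ((S g δ T).ncard : ℝ) ≤ C * T ^ (1 - c * δ) * Real.log T) :
    ∃ C' : ℝ, 0 < C' ∧ ∀ r T : ℝ, 0 ≤ r → 2 ≤ T →
      volume (Bad g (r / Real.log T) T) ≤ ENNReal.ofReal (C' * (1 + r) * Real.exp (-(c * r)) * T) := by
  classical
  have hl2 : 0 < Real.log 2 := Real.log_pos (by norm_num)
  have hlD : 0 ≤ Real.log (1 + 1) := Real.log_nonneg (by linarith)
  obtain ⟨E, hE⟩ : ∃ E : ℝ, E = 1 + Real.log (1 + 1) / Real.log 2 := ⟨_, rfl⟩
  have hE1 : 1 ≤ E := by
    rw [hE]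
    have : 0 ≤ Real.log (1 + 1) / Real.log 2 := by positivity
    linarith
  refine ⟨2 * C * (1 + 1) * E * (1 + 1 / c) + 1, by positivity, fun r T hr hT => ?_⟩
  have hT0 : 0 < T := by linarith
  set L := Real.log T with hL
  have hL2 : Real.log 2 ≤ L := Real.log_le_log (by norm_num) hT
  have hL0 : 0 < L := lt_of_lt_of_le hl2 hL2
  set h0 := r / L with hh0
  have h0n : 0 ≤ h0 := by positivity
  set T' := (1 + 1) * T with hT'
  have hT'2 : 2 ≤ T' := by rw [hT']; nlinarith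
  have hT'0 : 0 < T' := by linarith
  have hTD : T + 1 ≤ T' := by rw [hT']; nlinarith
  have hTT' : T ≤ T' := by linarith
  have hlogT' : Real.log T' = Real.log (1 + 1) + L := by
    rw [hT', Real.log_mul (by linarith) hT0.ne']
  have hlogT'1 : Real.log T' ≤ E * L := by
    rw [hlogT', hE]
    have h1 : Real.log (1 + 1) ≤ Real.log (1 + 1) / Real.log 2 * L := by
      rw [div_mul_eq_mul_div, le_div_iff₀ hl2]
      exact mul_le_mul_of_nonneg_left hL2 hlD
    linarith
  have hlogT'2 : L ≤ Real.log T' := by rw [hlogT']; linarith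
  have hfin := (hcount h0 T' h0n hT'2).1
  set Z := hfin.toFinset with hZ
  have hmem : ∀ b, b ∈ Z ↔ b ∈ S g h0 T' := fun b => by rw [hZ, Set.Finite.mem_toFinset]
  -- counting
  have hcnt : ∀ u : ℝ, h0 ≤ u → ((Z.filter (fun b => u ≤ |b.re|)).card : ℝ) ≤
      (C * (1 + 1) * E * T * L) * Real.exp (-((c * L) * u)) := by
    intro u hu
    have hu0 : 0 ≤ u := h0n.trans hu
    obtain ⟨hf1, hf2⟩ := hcount u T' hu0 hT'2
    have h1 : (Z.filter (fun b => u ≤ |b.re|)).card ≤ (S g u T').ncard := by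
      rw [← Set.ncard_coe_finset]
      refine Set.ncard_le_ncard ?_ hf1
      intro b hb
      rw [Finset.mem_coe, Finset.mem_filter, hmem] at hb
      exact ⟨hb.1.1, hb.2, hb.1.2.2.1, hb.1.2.2.2⟩
    have h2 : (((Z.filter (fun b => u ≤ |b.re|)).card : ℕ) : ℝ) ≤ ((S g u T').ncard : ℝ) := by exact_mod_cast h1
    refine h2.trans (hf2.trans ?_)
    have h3 : T' ^ (1 - c * u) = T' * Real.exp (-(c * u * Real.log T')) := by
      rw [Real.rpow_def_of_pos hT'0]
      have : Real.log T' * (1 - c * u) = Real.log T' + -(c * u * Real.log T') := by ring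
      rw [this, Real.exp_add, Real.exp_log hT'0]
    have h4 : Real.exp (-(c * u * Real.log T')) ≤ Real.exp (-((c * L) * u)) := by
      apply Real.exp_le_exp.mpr
      have := mul_le_mul_of_nonneg_left hlogT'2 (mul_nonneg hc.le hu0)
      linarith
    have hlogn : 0 ≤ Real.log T' := hL0.le.trans hlogT'2
    calc C * T' ^ (1 - c * u) * Real.log T'
        = C * (T' * Real.exp (-(c * u * Real.log T'))) * Real.log T' := by rw [h3]
      _ ≤ C * (T' * Real.exp (-((c * L) * u))) * (E * L) := by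
          gcongr
      _ = (C * (1 + 1) * E * T * L) * Real.exp (-((c * L) * u)) := by rw [hT']; ring
  have hsum := sum_le Z (fun b => |b.re|) (h0 := h0) (A := C * (1 + 1) * E * T * L) (a := c * L)
    (by positivity) h0n (by positivity) (fun b hb => ((hmem b).mp hb).2.1) hcnt
  -- cover
  obtain ⟨R, hR⟩ : ∃ R : Set ℝ, R = if h0 < 1 then Set.Icc 0 1 else ∅ := ⟨_, rfl⟩
  have hsub : Bad g h0 T ⊆ (⋃ b ∈ Z, Set.Icc (b.im - |b.re|) (b.im + |b.re|)) ∪ R := by
    intro t ht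
    rcases bad_cover2 h hD h0n ht with ⟨b, hb, htb⟩ | ⟨h1, h2⟩
    · left
      refine Set.mem_biUnion (x := b) ?_ htb
      rw [Finset.mem_coe, hmem]
      exact ⟨hb.1, hb.2.1, hb.2.2.1, hb.2.2.2.trans hTD⟩
    · right
      rw [hR, if_pos h1]
      exact h2
  have hvR : volume R ≤ ENNReal.ofReal (Real.exp (-(c * r)) * T) := by
    rw [hR]
    split_ifs with h1
    · rw [Real.volume_Icc, sub_zero]
      apply ENNReal.ofReal_le_ofReal
      have h2 : r < L := by
        rw [hh0, div_lt_one hL0] at h1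
        exact h1
      have h3 : c * r ≤ L := by nlinarith
      have h4 : T = Real.exp L := (Real.exp_log hT0).symm
      rw [h4, ← Real.exp_add]
      exact Real.one_le_exp (by linarith)
    · simp
  refine (measure_mono hsub).trans ((measure_union_le _ _).trans ?_)
  have h5 : ∑ b ∈ Z, volume (Set.Icc (b.im - |b.re|) (b.im + |b.re|)) = ENNReal.ofReal (2 * ∑ b ∈ Z, |b.re|) := by
    rw [Finset.mul_sum, ENNReal.ofReal_sum_of_nonneg (fun b _ => by positivity)]
    refine Finset.sum_congr rfl fun b _ => ?_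
    rw [Real.volume_Icc]
    congr 1
    ring
  have h10 : volume (⋃ b ∈ Z, Set.Icc (b.im - |b.re|) (b.im + |b.re|)) ≤
      ENNReal.ofReal (2 * ∑ b ∈ Z, |b.re|) := by
    refine (measure_biUnion_finset_le Z _).trans ?_
    rw [h5]
  have h6 : (c * L) * h0 = c * r := by
    rw [hh0]; field_simp
  rw [h6] at hsum
  have h7 : (C * (1 + 1) * E * T * L) * Real.exp (-(c * r)) * (h0 + 1 / (c * L)) =
      C * (1 + 1) * E * T * Real.exp (-(c * r)) * (r + 1 / c) := by
    rw [hh0]; field_simp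
  rw [h7] at hsum
  have h8 : r + 1 / c ≤ (1 + 1 / c) * (1 + r) := by
    have : 0 ≤ 1 / c := by positivity
    nlinarith
  have h9 : C * (1 + 1) * E * T * Real.exp (-(c * r)) * (r + 1 / c) ≤
      C * (1 + 1) * E * T * Real.exp (-(c * r)) * ((1 + 1 / c) * (1 + r)) :=
    mul_le_mul_of_nonneg_left h8 (by positivity)
  refine (add_le_add h10 hvR).trans ?_
  rw [← ENNReal.ofReal_add (by positivity) (by positivity)]
  refine ENNReal.ofReal_le_ofReal ?_
  have h11 : 0 ≤ r * (Real.exp (-(c * r)) * T) := by positivity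
  calc 2 * ∑ b ∈ Z, |b.re| + Real.exp (-(c * r)) * T
      ≤ 2 * (C * (1 + 1) * E * T * Real.exp (-(c * r)) * ((1 + 1 / c) * (1 + r))) + Real.exp (-(c * r)) * T := by
        linarith
    _ ≤ 2 * (C * (1 + 1) * E * T * Real.exp (-(c * r)) * ((1 + 1 / c) * (1 + r))) +
        (1 + r) * (Real.exp (-(c * r)) * T) := by linarith
    _ = (2 * C * (1 + 1) * E * (1 + 1 / c) + 1) * (1 + r) * Real.exp (-(c * r)) * T := by ring

/-- the final form -/
theorem bad_all2 (h : Ev g F K) (hD : ∀ b, g b = 0 → |b.re| ≤ 1)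
    (hcount : ∀ c : ℝ, c < 1 → ∃ C : ℝ, 0 < C ∧ ∀ δ T : ℝ, 0 ≤ δ → 2 ≤ T → (S g δ T).Finite ∧
      ((S g δ T).ncard : ℝ) ≤ C * T ^ (1 - c * δ) * Real.log T) {c : ℝ} (hc : c < 1) :
    ∃ C' : ℝ, 0 < C' ∧ ∀ r T : ℝ, 0 ≤ r → 2 ≤ T →
      volume (Bad g (r / Real.log T) T) ≤ ENNReal.ofReal (C' * Real.exp (-(c * r)) * T) := by
  obtain ⟨c1, hc1, hcc1, hc11⟩ : ∃ c1 : ℝ, 0 < c1 ∧ c < c1 ∧ c1 < 1 := by
    refine ⟨max ((c + 1) / 2) (1 / 2), ?_, ?_, ?_⟩
    · exact lt_of_lt_of_le (by norm_num) (le_max_right _ _)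
    · exact lt_of_lt_of_le (by linarith) (le_max_left _ _)
    · exact max_lt (by linarith) (by norm_num)
  obtain ⟨C, hC, h1⟩ := hcount c1 hc11
  obtain ⟨C1, hC1, h2⟩ := bad_meas2 h hD hc1 hc11.le hC h1
  have hd : 0 < c1 - c := by linarith
  refine ⟨C1 * max 1 (1 / (c1 - c)), by positivity, fun r T hr hT => (h2 r T hr hT).trans ?_⟩
  refine ENNReal.ofReal_le_ofReal ?_
  have h3 : 1 + r ≤ max 1 (1 / (c1 - c)) * Real.exp ((c1 - c) * r) := by
    have h4 : 1 + (c1 - c) * r ≤ Real.exp ((c1 - c) * r) := by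
      have := Real.add_one_le_exp ((c1 - c) * r)
      linarith
    have h5 : 1 + r ≤ max 1 (1 / (c1 - c)) * (1 + (c1 - c) * r) := by
      have h6 : 1 ≤ max 1 (1 / (c1 - c)) := le_max_left _ _
      have h7 : 1 ≤ max 1 (1 / (c1 - c)) * (c1 - c) := by
        have := mul_le_mul_of_nonneg_right (le_max_right 1 (1 / (c1 - c))) hd.le
        rwa [one_div_mul_cancel hd.ne'] at this
      nlinarith [mul_le_mul_of_nonneg_right h7 hr]
    exact h5.trans (mul_le_mul_of_nonneg_left h4 (by positivity))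
  have h8 : Real.exp ((c1 - c) * r) * Real.exp (-(c1 * r)) = Real.exp (-(c * r)) := by
    rw [← Real.exp_add]
    congr 1
    ring
  have hT0 : 0 < T := by linarith
  calc C1 * (1 + r) * Real.exp (-(c1 * r)) * T
      ≤ C1 * (max 1 (1 / (c1 - c)) * Real.exp ((c1 - c) * r)) * Real.exp (-(c1 * r)) * T := by gcongr
    _ = C1 * max 1 (1 / (c1 - c)) * (Real.exp ((c1 - c) * r) * Real.exp (-(c1 * r))) * T := by ring
    _ = C1 * max 1 (1 / (c1 - c)) * Real.exp (-(c * r)) * T := by rw [h8]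

/-- **The growth theorem** for a function with a functional equation. -/
theorem growth {X : ℂ → ℂ} {e K : ℝ} (hd : Differentiable ℂ X) (hconj : ∀ z, X (conj z) = conj (X z))
    (hsym : ∀ z, X (-z) = (e : ℂ) * X z)
    (hslow : ∀ z, ‖X z‖ ≤ Real.exp (K * (1 + ‖z‖) ^ (3 / 2 : ℝ)))
    (hnc : ∀ (c : ℂ) (m : ℕ), ∃ z, X z ≠ c * z ^ m)
    (hst : ∀ b, X b = 0 → |b.re| ≤ 1)
    (hcount : ∀ c : ℝ, c < 1 → ∃ C : ℝ, 0 < C ∧ ∀ δ T : ℝ, 0 ≤ δ → 2 ≤ T → (S X δ T).Finite ∧
      ((S X δ T).ncard : ℝ) ≤ C * T ^ (1 - c * δ) * Real.log T) {c : ℝ} (hc : c < 1) :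
    ∃ C' : ℝ, 0 < C' ∧ ∀ r T : ℝ, 0 ≤ r → 2 ≤ T →
      volume (Bad X (r / Real.log T) T) ≤ ENNReal.ofReal (C' * Real.exp (-(c * r)) * T) := by
  obtain ⟨m, g, F, K', hEv, hXg⟩ := ev_of hd hconj hsym hslow hnc
  obtain ⟨C, hC, h⟩ := bad_all2 hEv (fun b hb => hst b (by rw [hXg, hb, mul_zero]))
    (fun c hc => by
      obtain ⟨C, hC, h⟩ := hcount c hc
      refine ⟨C, hC, fun δ T hδ hT => ?_⟩
      obtain ⟨h1, h2⟩ := h δ T hδ hT
      refine ⟨h1.subset (S_sub hXg), le_trans ?_ h2⟩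
      exact_mod_cast Set.ncard_le_ncard (S_sub hXg) h1) hc
  refine ⟨C, hC, fun r T hr hT => (measure_mono (bad_sub hXg ?_)).trans (h r T hr hT)⟩
  have : 0 ≤ Real.log T := Real.log_nonneg (by linarith)
  positivity

/-- **The criterion.** All zeros are on the imaginary axis if and only if the modulus is strictly
increasing to the right of it on every horizontal line. -/
theorem criterion {X : ℂ → ℂ} {e K : ℝ} (hd : Differentiable ℂ X)
    (hconj : ∀ z, X (conj z) = conj (X z)) (hsym : ∀ z, X (-z) = (e : ℂ) * X z)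
    (hslow : ∀ z, ‖X z‖ ≤ Real.exp (K * (1 + ‖z‖) ^ (3 / 2 : ℝ)))
    (hnc : ∀ (c : ℂ) (m : ℕ), ∃ z, X z ≠ c * z ^ m) :
    (∀ b, X b = 0 → b.re = 0) ↔
      ∀ t : ℝ, StrictMonoOn (fun x : ℝ => ‖X (x + t * I : ℂ)‖) (Set.Ici 0) := by
  obtain ⟨m, g, F, K', hEv, hXg⟩ := ev_of hd hconj hsym hslow hnc
  constructor
  · intro h t
    refine mono_of hXg le_rfl (hEv.strict le_rfl fun b hb hb0 => ?_)
    have := h b (by rw [hXg, hb, mul_zero])
    rw [this, abs_zero] at hb0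
    exact absurd hb0 (lt_irrefl _)
  · intro h
    have key : ∀ b : ℂ, 0 < b.re → X b ≠ 0 := by
      intro b hb hb0
      have h1 := h b.im (Set.self_mem_Ici) (show b.re ∈ Set.Ici (0 : ℝ) from hb.le) hb
      simp only at h1
      have h2 : ((b.re : ℝ) + (b.im : ℝ) * I : ℂ) = b := Complex.re_add_im b
      rw [h2, hb0, norm_zero] at h1
      exact absurd h1 (not_lt.2 (norm_nonneg _))
    intro b hb
    by_contra hne
    rcases lt_or_gt_of_ne hne with h1 | h1
    · refine key (-b) (by simpa using h1) ?_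
      rw [hsym, hb, mul_zero]
    · exact key b h1 hb

end Pool.Agent.V11271.GR
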