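import Pool.Agent.Y771.NF.Dn
import Pool.Agent.V11271.GR.Meas

set_option autoImplicit false

/-!
# Log-free density bounds in a multiplicative form
-/

namespace Pool.Agent.V11271.GR

open Complex Filter Topology MeasureTheory Set
open Pool.Agent.Y671.GL
open Pool.Agent.Y22.RX (S)
open scoped ComplexConjugate

/-- A log-free density bound for the zeros of `X` off the imaginary axis, counted with multiplicity. -/
def Dens (X : ℂ → ℂ) : Prop := ∀ c : ℝ, c < 1 → ∃ C : ℝ, 0 < C ∧ ∀ δ T : ℝ, 0 ≤ δ → 2 ≤ T →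
  ∀ A : Finset ℂ, (∀ s ∈ A, δ ≤ |s.re| ∧ 0 < s.im ∧ s.im ≤ T) →
    ∑ s ∈ A, (analyticOrderNatAt X s : ℝ) ≤ C * T ^ (1 - c * δ) * Real.log T

lemma ord_zero {X : ℂ → ℂ} (hX : Differentiable ℂ X) {s : ℂ} (h : X s ≠ 0) : analyticOrderNatAt X s = 0 := by
  unfold analyticOrderNatAt
  rw [(hX.analyticAt s).analyticOrderAt_eq_zero.2 h]
  rfl

theorem dens_of {k : ℕ} (hk : 1 ≤ k) {c0 : ℝ} {u : ℂ} {X Z : ℂ → ℂ} (hD : LData k c0 u X Z)
    (hZ : Differentiable ℂ Z) (hst : ∀ s, X s = 0 → |s.re| ≤ 1 / 2)
    (hdens : ∀ c : ℝ, c < 1 → ∃ C : ℝ, 0 < C ∧ ∀ σ T : ℝ, 1 / 2 ≤ σ → σ ≤ 1 → 2 ≤ T →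
      (Pool.Agent.Y24.GL.ZF Z σ T).Finite ∧
      ∑ᶠ ρ ∈ Pool.Agent.Y24.GL.ZF Z σ T, (analyticOrderNatAt Z ρ : ℝ) ≤
        C * T ^ (1 - c * (σ - 1 / 2)) * Real.log T) : Dens X := by
  classical
  intro c hc
  obtain ⟨C, hC, h⟩ := hdens c hc
  refine ⟨2 * C, by positivity, fun d T hd hT A hA => ?_⟩
  have hX := hD.diff
  have hlog : 0 ≤ Real.log T := Real.log_nonneg (by linarith)
  have hT0 : 0 ≤ T := by linarith
  have hpow : 0 ≤ T ^ (1 - c * d) := Real.rpow_nonneg hT0 _
  have hsplit : ∑ s ∈ A, (analyticOrderNatAt X s : ℝ) =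
      ∑ s ∈ A.filter (fun s => X s = 0), (analyticOrderNatAt X s : ℝ) := by
    rw [← Finset.sum_filter_add_sum_filter_not A (fun s => X s = 0)]
    rw [add_eq_left]
    refine Finset.sum_eq_zero fun s hs => ?_
    rw [ord_zero hX (Finset.mem_filter.1 hs).2]
    simp
  rw [hsplit]
  obtain ⟨S, hS⟩ : ∃ S, S = A.filter (fun s => X s = 0) := ⟨_, rfl⟩
  rw [← hS]
  have hSm : ∀ w ∈ S, X w = 0 ∧ d ≤ |w.re| ∧ 0 < w.im ∧ w.im ≤ T := by
    intro w hw
    rw [hS, Finset.mem_filter] at hw
    exact ⟨hw.2, hA w hw.1⟩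
  rcases le_or_gt d (1 / 2) with hd2 | hd2
  · have hB := h (1 / 2 + d) T (by linarith) (by linarith) hT
    rw [add_sub_cancel_left] at hB
    rw [← Finset.sum_filter_add_sum_filter_not S (fun w => d ≤ w.re)]
    have hZ0 : ∀ w : ℂ, 0 < w.im → X w = 0 → Z (1 / 2 + w) = 0 := by
      intro w hw h0
      rw [hD.eq w (Or.inl hw)] at h0
      refine (mul_eq_zero.1 h0).resolve_left ?_
      refine mul_ne_zero hD.u_ne (mul_ne_zero ?_ ?_)
      · rw [Ne, Complex.cpow_eq_zero_iff]
        intro h
        have := hD.c_pos.ne'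
        exact this (by exact_mod_cast h.1)
      · apply Complex.Gamma_ne_zero
        intro m hm
        have := congrArg Complex.im hm
        simp at this
        linarith
    have hp : ∑ w ∈ S.filter (fun w => d ≤ w.re), (analyticOrderNatAt X w : ℝ) ≤
        C * T ^ (1 - c * d) * Real.log T := by
      refine Pool.Agent.Y771.NF.half_sum (φ := fun w => 1 / 2 + w) (fun a _ b _ hab => add_left_cancel hab) ?_ ?_ hB
      · intro w hw
        obtain ⟨h1, h2⟩ := Finset.mem_filter.1 hw
        obtain ⟨h3, h4, h5, h6⟩ := hSm w h1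
        refine ⟨hZ0 w h5 h3, ?_, ?_, ?_⟩
        · simp
          linarith
        · simp
          exact h5
        · simp
          exact h6
      · intro w hw
        obtain ⟨h1, h2⟩ := Finset.mem_filter.1 hw
        obtain ⟨h3, h4, h5, h6⟩ := hSm w h1
        exact Pool.Agent.Y771.NF.ord_L hk hD hZ h5
    have hm : ∑ w ∈ S.filter (fun w => ¬ d ≤ w.re), (analyticOrderNatAt X w : ℝ) ≤
        C * T ^ (1 - c * d) * Real.log T := by
      refine Pool.Agent.Y771.NF.half_sum (φ := fun w => 1 / 2 + -(conj w)) (fun a _ b _ hab => ?_) ?_ ?_ hB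
      · have h1 : -(conj a) = -(conj b) := add_left_cancel hab
        exact (starRingEnd ℂ).injective (neg_injective h1)
      · intro w hw
        obtain ⟨h1, h2⟩ := Finset.mem_filter.1 hw
        obtain ⟨h3, h4, h5, h6⟩ := hSm w h1
        have h7 : X (-(conj w)) = 0 := by
          rw [hD.symm, h3, map_zero]
        have him : (-(conj w)).im = w.im := by simp
        have hre : (-(conj w)).re = -w.re := by simp
        refine ⟨hZ0 _ (by rw [him]; exact h5) h7, ?_, ?_, ?_⟩
        · have h8 : d ≤ -w.re := by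
            rcases le_abs.1 h4 with h9 | h9
            · exact absurd h9 h2
            · exact h9
          simp
          linarith
        · simp
          exact h5
        · simp
          exact h6
      · intro w hw
        obtain ⟨h1, h2⟩ := Finset.mem_filter.1 hw
        obtain ⟨h3, h4, h5, h6⟩ := hSm w h1
        have him : (-(conj w)).im = w.im := by simp
        rw [← Pool.Agent.Y771.NF.ordNat_symm hX hD.symm w]
        exact Pool.Agent.Y771.NF.ord_L hk hD hZ (by rw [him]; exact h5)
    calc _ ≤ C * T ^ (1 - c * d) * Real.log T + C * T ^ (1 - c * d) * Real.log T := add_le_add hp hm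
      _ = _ := by ring
  · have hemp : S = ∅ := by
      rw [Finset.eq_empty_iff_forall_notMem]
      intro w hw
      obtain ⟨h1, h2, -, -⟩ := hSm w hw
      have := hst w h1
      linarith
    rw [hemp, Finset.sum_empty]
    positivity

/-- finiteness and numbers of zeros -/
theorem Dens.fin {X : ℂ → ℂ} (hX : Differentiable ℂ X) (hne : ∃ z, X z ≠ 0) (h : Dens X) {c : ℝ} (hc : c < 1) :
    ∃ C : ℝ, 0 < C ∧ ∀ δ T : ℝ, 0 ≤ δ → 2 ≤ T → (S X δ T).Finite ∧
      ((∑ᶠ s ∈ S X δ T, analyticOrderNatAt X s : ℕ) : ℝ) ≤ C * T ^ (1 - c * δ) * Real.log T ∧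
      ((S X δ T).ncard : ℝ) ≤ C * T ^ (1 - c * δ) * Real.log T := by
  classical
  obtain ⟨C, hC, h1⟩ := h c hc
  refine ⟨C, hC, fun δ T hδ hT => ?_⟩
  have hord : ∀ s, X s = 0 → (1 : ℝ) ≤ (analyticOrderNatAt X s : ℝ) := by
    intro s hs
    have h2 : analyticOrderNatAt X s ≠ 0 := by
      intro h3
      have h4 := order_ne_top hX hne s
      obtain ⟨n, hn⟩ := ENat.ne_top_iff_exists.1 h4
      have h5 : analyticOrderAt X s = 0 := by
        unfold analyticOrderNatAt at h3
        rw [← hn] at h3 ⊢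
        have h6 : n = 0 := by simpa using h3
        rw [h6]
        rfl
      exact (hX.analyticAt s).analyticOrderAt_eq_zero.1 h5 hs
    exact_mod_cast Nat.one_le_iff_ne_zero.2 h2
  have hmem : ∀ s ∈ S X δ T, δ ≤ |s.re| ∧ 0 < s.im ∧ s.im ≤ T := fun s hs => hs.2
  have hfin : (S X δ T).Finite := by
    by_contra hinf
    obtain ⟨n, hn⟩ := exists_nat_gt (C * T ^ (1 - c * δ) * Real.log T)
    obtain ⟨A, hA1, hA2⟩ := (show (S X δ T).Infinite from hinf).exists_subset_card_eq n
    have h2 := h1 δ T hδ hT A (fun s hs => hmem s (hA1 hs))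
    have h3 : (n : ℝ) ≤ ∑ s ∈ A, (analyticOrderNatAt X s : ℝ) := by
      rw [← hA2]
      have h4 : (A.card : ℝ) = ∑ s ∈ A, (1 : ℝ) := by simp
      rw [h4]
      exact Finset.sum_le_sum fun s hs => hord s (hA1 hs).1
    linarith
  have h2 := h1 δ T hδ hT hfin.toFinset (fun s hs => hmem s ((Set.Finite.mem_toFinset _).1 hs))
  refine ⟨hfin, ?_, ?_⟩
  · rw [finsum_mem_eq_finite_toFinset_sum _ hfin]
    push_cast
    exact h2
  · refine le_trans ?_ h2
    rw [Set.ncard_eq_toFinset_card _ hfin]
    have h4 : (hfin.toFinset.card : ℝ) = ∑ s ∈ hfin.toFinset, (1 : ℝ) := by simp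
    rw [h4]
    exact Finset.sum_le_sum fun s hs => hord s ((Set.Finite.mem_toFinset _).1 hs).1

theorem Dens.const_mul {X : ℂ → ℂ} {v : ℂ} (hv : v ≠ 0) (hX : Differentiable ℂ X) (h : Dens X) :
    Dens (fun z => v * X z) := by
  intro c hc
  obtain ⟨C, hC, h1⟩ := h c hc
  refine ⟨C, hC, fun δ T hδ hT A hA => ?_⟩
  have h2 : ∀ s, analyticOrderNatAt (fun z => v * X z) s = analyticOrderNatAt X s := by
    intro s
    have e : (fun z => v * X z) = (fun _ => v) * X := rfl
    unfold analyticOrderNatAt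
    rw [e, analyticOrderAt_mul analyticAt_const (hX.analyticAt s),
      (analyticAt_const (v := v) (x := s)).analyticOrderAt_eq_zero.2 hv, zero_add]
  simp only [h2]
  exact h1 δ T hδ hT A hA

/-- the density bound of a product -/
theorem dens_prod {ι : Type*} [DecidableEq ι] (s : Finset ι) (X : ι → ℂ → ℂ)
    (hd : ∀ i ∈ s, Differentiable ℂ (X i)) (hne : ∀ i ∈ s, ∃ z, X i z ≠ 0) (h : ∀ i ∈ s, Dens (X i)) :
    Dens (fun z => ∏ i ∈ s, X i z) := by
  induction s using Finset.induction_on with
  | empty =>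
    intro c hc
    refine ⟨1, one_pos, fun δ T hδ hT A hA => ?_⟩
    have h0 : ∀ z : ℂ, analyticOrderNatAt (fun z : ℂ => ∏ i ∈ (∅ : Finset ι), X i z) z = 0 := by
      intro z
      simp only [Finset.prod_empty]
      exact ord_zero (X := fun _ : ℂ => (1 : ℂ)) (differentiable_const _) one_ne_zero
    simp only [h0]
    have hlog : 0 ≤ Real.log T := Real.log_nonneg (by linarith)
    simp
    have : 0 ≤ T := by linarith
    positivity
  | insert a s ha ih =>
    intro c hc
    obtain ⟨C1, hC1, h1⟩ := h a (Finset.mem_insert_self a s) c hc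
    obtain ⟨C2, hC2, h2⟩ := ih (fun i hi => hd i (Finset.mem_insert_of_mem hi))
      (fun i hi => hne i (Finset.mem_insert_of_mem hi)) (fun i hi => h i (Finset.mem_insert_of_mem hi)) c hc
    refine ⟨C1 + C2, by positivity, fun δ T hδ hT A hA => ?_⟩
    have hda := hd a (Finset.mem_insert_self a s)
    have hds : Differentiable ℂ (fun z => ∏ i ∈ s, X i z) :=
      Differentiable.fun_finsetProd fun i hi => hd i (Finset.mem_insert_of_mem hi)
    have hnes : ∃ z, (fun z => ∏ i ∈ s, X i z) z ≠ 0 := by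
      -- a product of nonzero entire functions
      by_contra hcon
      push Not at hcon
      have h3 : ∀ t : Finset ι, (∀ i ∈ t, i ∈ s) → analyticOrderAt (fun z => ∏ i ∈ t, X i z) 0 ≠ ⊤ := by
        intro t
        induction t using Finset.induction_on with
        | empty =>
          intro _
          simp only [Finset.prod_empty]
          rw [(analyticAt_const (v := (1 : ℂ)) (x := (0 : ℂ))).analyticOrderAt_eq_zero.2 one_ne_zero]
          simp
        | insert b t hb iht =>
          intro hbt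
          have hbs : b ∈ s := hbt b (Finset.mem_insert_self b t)
          have hdb := hd b (Finset.mem_insert_of_mem hbs)
          have hdt : Differentiable ℂ (fun z => ∏ i ∈ t, X i z) :=
            Differentiable.fun_finsetProd fun i hi => hd i (Finset.mem_insert_of_mem (hbt i (Finset.mem_insert_of_mem hi)))
          have e : (fun z => ∏ i ∈ insert b t, X i z) = X b * (fun z => ∏ i ∈ t, X i z) := by
            funext z
            rw [Finset.prod_insert hb]
            rfl
          rw [e, analyticOrderAt_mul (hdb.analyticAt 0) (hdt.analyticAt 0)]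
          have h5 := order_ne_top hdb (hne b (Finset.mem_insert_of_mem hbs)) 0
          have h6 := iht fun i hi => hbt i (Finset.mem_insert_of_mem hi)
          simp [h5, h6]
      refine h3 s (fun i hi => hi) ?_
      rw [analyticOrderAt_eq_top]
      exact Eventually.of_forall hcon
    have hord : ∀ z, analyticOrderNatAt (fun z => ∏ i ∈ insert a s, X i z) z =
        analyticOrderNatAt (X a) z + analyticOrderNatAt (fun z => ∏ i ∈ s, X i z) z := by
      intro z
      have e : (fun z => ∏ i ∈ insert a s, X i z) = X a * (fun z => ∏ i ∈ s, X i z) := by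
        funext z
        rw [Finset.prod_insert ha]
        rfl
      unfold analyticOrderNatAt
      rw [e, analyticOrderAt_mul (hda.analyticAt z) (hds.analyticAt z)]
      exact ENat.toNat_add (order_ne_top hda (hne a (Finset.mem_insert_self a s)) z) (order_ne_top hds hnes z)
    simp only [hord]
    push_cast
    rw [Finset.sum_add_distrib]
    calc _ ≤ C1 * T ^ (1 - c * δ) * Real.log T + C2 * T ^ (1 - c * δ) * Real.log T :=
          add_le_add (h1 δ T hδ hT A hA) (h2 δ T hδ hT A hA)
      _ = _ := by ring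

end Pool.Agent.V11271.GR
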