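import Pool.Agent.Y22.RX2
import Pool.Agent.Helper242.KK.Even

set_option autoImplicit false

/-!
# Growth of the modulus away from the central line, for functions with zeros on the real axis

The starting modules `Pool.Agent.Y22.RX1`, `RX2` treat real even entire functions without real zeros.
Here a zero of any order at the origin and real zeros are allowed.
-/

namespace Pool.Agent.V11271.GR

open Complex Filter Topology MeasureTheory Set
open Pool.Agent.Y22.RX (Ev S Bad sum_le)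
open scoped ComplexConjugate

/-- splitting off the zero at the origin -/
theorem fac (m : ℕ) : ∀ X : ℂ → ℂ, Differentiable ℂ X → analyticOrderAt X 0 = (m : ℕ∞) →
    ∃ g : ℂ → ℂ, Differentiable ℂ g ∧ g 0 ≠ 0 ∧ ∀ z, X z = z ^ m * g z := by
  induction m with
  | zero =>
    intro X hX h
    refine ⟨X, hX, ?_, fun z => by rw [pow_zero, one_mul]⟩
    exact (hX.analyticAt 0).analyticOrderAt_eq_zero.1 (by simpa using h)
  | succ m ih =>
    intro X hX h
    have h0 : X 0 = 0 := by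
      by_contra hne
      have h1 := (hX.analyticAt 0).analyticOrderAt_eq_zero.2 hne
      rw [h] at h1
      have h2 : m + 1 = 0 := by exact_mod_cast h1
      omega
    obtain ⟨Y, hYd⟩ : ∃ Y, Y = dslope X 0 := ⟨_, rfl⟩
    have hYdiff : Differentiable ℂ Y := by
      rw [hYd, ← differentiableOn_univ, Complex.differentiableOn_dslope univ_mem, differentiableOn_univ]
      exact hX
    have hXY : ∀ z, X z = z * Y z := by
      intro z
      have h1 := sub_smul_dslope X 0 z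
      rw [h0, sub_zero, sub_zero, smul_eq_mul] at h1
      rw [hYd]
      exact h1.symm
    have hid : analyticOrderAt (fun z : ℂ => z) 0 = ((1 : ℕ) : ℕ∞) := by
      rw [AnalyticAt.analyticOrderAt_eq_natCast (by fun_prop)]
      exact ⟨fun _ => 1, analyticAt_const, one_ne_zero, Eventually.of_forall fun z => by simp⟩
    have hord : analyticOrderAt Y 0 = (m : ℕ∞) := by
      have e : X = (fun z => z) * Y := by
        funext z
        exact hXY z
      have h1 : analyticOrderAt X 0 = analyticOrderAt (fun z : ℂ => z) 0 + analyticOrderAt Y 0 := by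
        rw [e]
        exact analyticOrderAt_mul (by fun_prop) (hYdiff.analyticAt 0)
      rw [h, hid] at h1
      have hnt : analyticOrderAt Y 0 ≠ ⊤ := by
        intro ht
        rw [ht] at h1
        simp at h1
      obtain ⟨n, hn⟩ := ENat.ne_top_iff_exists.1 hnt
      rw [← hn] at h1 ⊢
      have h2 : m + 1 = 1 + n := by exact_mod_cast h1
      have h3 : n = m := by omega
      rw [h3]
    obtain ⟨g, hg, hg0, hgY⟩ := ih Y hYdiff hord
    refine ⟨g, hg, hg0, fun z => ?_⟩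
    rw [hXY, hgY]
    ring

lemma order_ne_top {X : ℂ → ℂ} (hX : Differentiable ℂ X) (hne : ∃ z, X z ≠ 0) (b : ℂ) :
    analyticOrderAt X b ≠ ⊤ := by
  intro h0
  rw [analyticOrderAt_eq_top] at h0
  have h1 : AnalyticOnNhd ℂ X Set.univ := fun z _ => hX.analyticAt z
  have h2 := h1.eqOn_zero_of_preconnected_of_eventuallyEq_zero isPreconnected_univ (Set.mem_univ b) h0
  obtain ⟨z, hz⟩ := hne
  exact hz (h2 (Set.mem_univ z))

/-- the even factor -/
theorem ev_of {X : ℂ → ℂ} {e K : ℝ} (hd : Differentiable ℂ X) (hconj : ∀ z, X (conj z) = conj (X z))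
    (hsym : ∀ z, X (-z) = (e : ℂ) * X z)
    (hslow : ∀ z, ‖X z‖ ≤ Real.exp (K * (1 + ‖z‖) ^ (3 / 2 : ℝ)))
    (hnc : ∀ (c : ℂ) (m : ℕ), ∃ z, X z ≠ c * z ^ m) :
    ∃ (m : ℕ) (g F : ℂ → ℂ) (K' : ℝ), Ev g F K' ∧ ∀ z, X z = z ^ m * g z := by
  have hne : ∃ z, X z ≠ 0 := by
    obtain ⟨z, hz⟩ := hnc 0 0
    exact ⟨z, by simpa using hz⟩
  obtain ⟨m, hm⟩ := ENat.ne_top_iff_exists.1 (order_ne_top hd hne 0)
  obtain ⟨g, hg, hg0, hXg⟩ := fac m X hd hm.symm
  have hgc : Continuous g := hg.continuous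
  have hdense : Dense ({0}ᶜ : Set ℂ) := dense_compl_singleton (0 : ℂ)
  -- symmetry
  have hs1 : (fun z => g (-z)) = fun z => ((e : ℂ) * (-1) ^ m) * g z := by
    refine Continuous.ext_on hdense (hgc.comp continuous_neg) (continuous_const.mul hgc) fun z hz => ?_
    have hz0 : z ≠ 0 := hz
    have hzm : z ^ m ≠ 0 := pow_ne_zero m hz0
    have h1 := hsym z
    rw [hXg, hXg, neg_pow] at h1
    have h2 : ((-1 : ℂ) ^ m) * ((-1 : ℂ) ^ m) = 1 := by
      rw [← mul_pow]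
      norm_num
    show g (-z) = ((e : ℂ) * (-1) ^ m) * g z
    have h3 : z ^ m * (g (-z) - ((e : ℂ) * (-1) ^ m) * g z) = 0 := by
      linear_combination ((-1 : ℂ) ^ m) * h1 - z ^ m * g (-z) * h2
    exact sub_eq_zero.1 ((mul_eq_zero.1 h3).resolve_left hzm)
  have he1 : (e : ℂ) * (-1) ^ m = 1 := by
    have h1 := congrFun hs1 0
    simp only [neg_zero] at h1
    have h2 : (((e : ℂ) * (-1) ^ m) - 1) * g 0 = 0 := by linear_combination -h1
    exact sub_eq_zero.1 ((mul_eq_zero.1 h2).resolve_right hg0)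
  have hev : ∀ z, g (-z) = g z := by
    intro z
    have h1 : g (-z) = ((e : ℂ) * (-1) ^ m) * g z := congrFun hs1 z
    rw [h1, he1, one_mul]
  have hc1 : (fun z => g (conj z)) = fun z => conj (g z) := by
    refine Continuous.ext_on hdense (hgc.comp Complex.continuous_conj) (Complex.continuous_conj.comp hgc)
      fun z hz => ?_
    have hz0 : z ≠ 0 := hz
    have hzm : (conj z) ^ m ≠ 0 := pow_ne_zero m (by simpa using hz0)
    have h1 := hconj z
    rw [hXg, hXg, map_mul, map_pow] at h1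
    exact mul_left_cancel₀ hzm h1
  have hgconj : ∀ z, g (conj z) = conj (g z) := fun z => congrFun hc1 z
  -- growth
  obtain ⟨M, hM⟩ := (isCompact_closedBall (0 : ℂ) 1).exists_bound_of_continuousOn hgc.continuousOn
  obtain ⟨K1, hK1⟩ : ∃ K1 : ℝ, K1 = |K| + |M| := ⟨_, rfl⟩
  have hK1n : 0 ≤ K1 := by rw [hK1]; positivity
  have hgrow : ∀ z, ‖g z‖ ≤ Real.exp (K1 * (1 + ‖z‖) ^ (3 / 2 : ℝ)) := by
    intro z
    have h1 : (1 : ℝ) ≤ (1 + ‖z‖) ^ (3 / 2 : ℝ) := Real.one_le_rpow (by linarith [norm_nonneg z]) (by norm_num)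
    rcases le_total 1 ‖z‖ with hz | hz
    · have h2 : ‖g z‖ ≤ ‖X z‖ := by
        rw [hXg, norm_mul, norm_pow]
        have h3 : (1 : ℝ) ≤ ‖z‖ ^ m := one_le_pow₀ hz
        have h4 := norm_nonneg (g z)
        nlinarith
      refine h2.trans ((hslow z).trans (Real.exp_le_exp.2 ?_))
      have h5 : K ≤ K1 := by
        rw [hK1]
        have := le_abs_self K
        have := abs_nonneg M
        linarith
      exact mul_le_mul_of_nonneg_right h5 (by linarith)
    · have h2 := hM z (by simpa using hz)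
      have h3 : M ≤ K1 := by
        rw [hK1]
        have := le_abs_self M
        have := abs_nonneg K
        linarith
      have h4 : K1 ≤ K1 * (1 + ‖z‖) ^ (3 / 2 : ℝ) := by nlinarith
      have h5 := Real.add_one_le_exp (K1 * (1 + ‖z‖) ^ (3 / 2 : ℝ))
      linarith
  obtain ⟨F, hFd, hF⟩ := Pool.Agent.Helper242.KK.exists_even_sq hg hev
  refine ⟨m, g, F, 2 * K1, ⟨hFd, ?_, ?_, ?_, hF, ?_⟩, hXg⟩
  · have h1 := hF 0
    rw [zero_pow two_ne_zero] at h1
    rw [h1]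
    exact hg0
  · intro x
    obtain ⟨z, hz⟩ := IsAlgClosed.exists_pow_nat_eq x (n := 2) (by norm_num)
    have h1 : conj (z ^ 2) = (conj z) ^ 2 := map_pow _ _ _
    rw [← hz, hF, h1, hF, hgconj]
  · intro x
    obtain ⟨z, hz⟩ := IsAlgClosed.exists_pow_nat_eq x (n := 2) (by norm_num)
    have hzx : ‖z‖ ^ 2 = ‖x‖ := by rw [← norm_pow, hz]
    have h1 := hgrow z
    rw [← hF z, hz] at h1
    refine h1.trans (Real.exp_le_exp.2 ?_)
    have h2 : (1 + ‖z‖) ^ (3 / 2 : ℝ) = ((1 + ‖z‖) ^ 2) ^ (3 / 4 : ℝ) := by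
      rw [← Real.rpow_natCast, ← Real.rpow_mul (by positivity)]
      norm_num
    have h3 : (1 + ‖z‖) ^ 2 ≤ 2 * (1 + ‖x‖) := by
      rw [← hzx]
      nlinarith [sq_nonneg (1 - ‖z‖)]
    have h4 : (1 + ‖z‖) ^ (3 / 2 : ℝ) ≤ 2 * (1 + ‖x‖) ^ (3 / 4 : ℝ) := by
      rw [h2]
      calc ((1 + ‖z‖) ^ 2) ^ (3 / 4 : ℝ) ≤ (2 * (1 + ‖x‖)) ^ (3 / 4 : ℝ) :=
            Real.rpow_le_rpow (by positivity) h3 (by norm_num)
        _ = 2 ^ (3 / 4 : ℝ) * (1 + ‖x‖) ^ (3 / 4 : ℝ) := Real.mul_rpow (by norm_num) (by positivity)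
        _ ≤ 2 * (1 + ‖x‖) ^ (3 / 4 : ℝ) := by
            have h5 : (2 : ℝ) ^ (3 / 4 : ℝ) ≤ 2 ^ (1 : ℝ) :=
              Real.rpow_le_rpow_of_exponent_le (by norm_num) (by norm_num)
            rw [Real.rpow_one] at h5
            gcongr
    calc K1 * (1 + ‖z‖) ^ (3 / 2 : ℝ) ≤ K1 * (2 * (1 + ‖x‖) ^ (3 / 4 : ℝ)) := by gcongr
      _ = 2 * K1 * (1 + ‖x‖) ^ (3 / 4 : ℝ) := by ring
  · by_contra hcon
    push Not at hcon
    obtain ⟨z, hz⟩ := hnc (g 0) m
    apply hz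
    rw [hXg, hcon z]
    ring

/-- monotonicity of the factor gives monotonicity -/
theorem mono_of {X g : ℂ → ℂ} {m : ℕ} (h : ∀ z, X z = z ^ m * g z) {h0 t : ℝ} (h0n : 0 ≤ h0)
    (hm : StrictMonoOn (fun x : ℝ => ‖g (x + t * I : ℂ)‖) (Set.Ici h0)) :
    StrictMonoOn (fun x : ℝ => ‖X (x + t * I : ℂ)‖) (Set.Ici h0) := by
  intro x1 hx1 x2 hx2 h12
  have hx10 : 0 ≤ x1 := h0n.trans hx1
  have hx20 : 0 < x2 := lt_of_le_of_lt hx10 h12
  have h1 := hm hx1 hx2 h12
  simp only at h1 ⊢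
  rw [h, h, norm_mul, norm_mul, norm_pow, norm_pow]
  have h2 : ‖(x1 + t * I : ℂ)‖ ≤ ‖(x2 + t * I : ℂ)‖ := by
    rw [Complex.norm_add_mul_I, Complex.norm_add_mul_I]
    apply Real.sqrt_le_sqrt
    nlinarith
  have h3 : 0 < ‖(x2 + t * I : ℂ)‖ := by
    rw [norm_pos_iff]
    intro h4
    have h5 := congrArg Complex.re h4
    simp at h5
    linarith
  calc ‖(x1 + t * I : ℂ)‖ ^ m * ‖g (x1 + t * I)‖ ≤ ‖(x2 + t * I : ℂ)‖ ^ m * ‖g (x1 + t * I)‖ := by gcongr
    _ < ‖(x2 + t * I : ℂ)‖ ^ m * ‖g (x2 + t * I)‖ := mul_lt_mul_of_pos_left h1 (by positivity)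

theorem bad_sub {X g : ℂ → ℂ} {m : ℕ} (h : ∀ z, X z = z ^ m * g z) {h0 T : ℝ} (h0n : 0 ≤ h0) :
    Bad X h0 T ⊆ Bad g h0 T := by
  rintro t ⟨h1, h2, h3⟩
  exact ⟨h1, h2, fun h4 => h3 (mono_of h h0n h4)⟩

theorem S_sub {X g : ℂ → ℂ} {m : ℕ} (h : ∀ z, X z = z ^ m * g z) {δ T : ℝ} : S g δ T ⊆ S X δ T := by
  rintro b ⟨h1, h2, h3, h4⟩
  exact ⟨by rw [h, h1, mul_zero], h2, h3, h4⟩

variable {g F : ℂ → ℂ} {K : ℝ}

theorem bad_cover2 (h : Ev g F K) {D h0 T : ℝ} (hD : ∀ b, g b = 0 → |b.re| ≤ D)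
    (h0n : 0 ≤ h0) {t : ℝ} (ht : t ∈ Bad g h0 T) :
    (∃ b ∈ S g h0 (T + D), t ∈ Set.Icc (b.im - |b.re|) (b.im + |b.re|)) ∨ (h0 < D ∧ t ∈ Set.Icc 0 D) := by
  obtain ⟨ht0, htT, hbad⟩ := ht
  by_contra hcon
  rw [not_or] at hcon
  obtain ⟨hcon, hcon2⟩ := hcon
  apply hbad
  refine h.strict h0n fun b hb hb0 => ?_
  by_contra hlt
  push Not at hlt
  have hDb := hD b hb
  rcases lt_trichotomy b.im 0 with him | him | him
  · apply hcon
    refine ⟨(starRingEnd ℂ) b, ⟨?_, ?_, ?_, ?_⟩, ?_⟩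
    · rw [h.fconj, hb, map_zero]
    · rw [Complex.conj_re]; exact hb0.le
    · rw [Complex.conj_im]; linarith
    · rw [Complex.conj_im]
      rw [abs_lt] at hlt
      linarith
    · rw [Complex.conj_im, Complex.conj_re]
      rw [abs_lt] at hlt
      constructor <;> linarith
  · apply hcon2
    rw [him, sub_zero, abs_lt] at hlt
    exact ⟨by linarith, ht0, by linarith⟩
  · apply hcon
    refine ⟨b, ⟨hb, hb0.le, him, ?_⟩, ?_⟩
    · rw [abs_lt] at hlt
      linarith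
    · rw [abs_lt] at hlt
      constructor <;> linarith

end Pool.Agent.V11271.GR
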